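import Pool.Agent.Q240.BX.Tail

/-!
Normalized exit-time moments of boxes: for every dimension `d ≥ 2`, every `p > 0` and every box
`R_a = {|x_k| < a_k}`, the product `λ₁(R_a)^p E₀ τ^p` is at most its value for the cube, with
equality exactly for the cubes.
-/

namespace Pool.Agent.Results.MP_1e851b_pr.BoxesVersusCube

open MeasureTheory ProbabilityTheory Set Filter Pool.Agent.Q240.BX
open scoped ENNReal NNReal Topology

/-- The exit time from the open box `{x : ∀ k, |x k| < a k}` of the `d`-dimensional process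
with coordinates `B k`: the infimum of the times at which the process is outside the box. -/
noncomputable def exitTime {Ω : Type*} {d : ℕ} (B : Fin d → ℝ≥0 → Ω → ℝ) (a : Fin d → ℝ)
    (ω : Ω) : ℝ≥0∞ :=
  ⨅ (t : ℝ≥0) (_ : ¬ ∀ k, |B k t ω| < a k), (t : ℝ≥0∞)

/-- The first Dirichlet eigenvalue of `-Δ` on the box `{x : ∀ k, |x k| < a k}`, given by its
explicit value `(π² / 4) ∑ a_k⁻²`. -/
noncomputable def lam {d : ℕ} (a : Fin d → ℝ) : ℝ := Real.pi ^ 2 / 4 * ∑ k, (a k ^ 2)⁻¹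

/-- The normalized exit-time moment `λ₁(R_a)^p E τ_{R_a}^p`. -/
noncomputable def normMoment {Ω : Type*} [MeasurableSpace Ω] (P : Measure Ω) {d : ℕ}
    (B : Fin d → ℝ≥0 → Ω → ℝ) (p : ℝ) (a : Fin d → ℝ) : ℝ≥0∞ :=
  ENNReal.ofReal (lam a ^ p) * ∫⁻ ω, exitTime B a ω ^ p ∂P

variable {Ω : Type*} [MeasurableSpace Ω] {P : Measure Ω} {d : ℕ} {B : Fin d → ℝ≥0 → Ω → ℝ}

lemma exit_ae (hB : ∀ k, IsBrownianReal (B k) P) (a : Fin d → ℝ) (t : ℝ≥0) :
    {ω | (t : ℝ≥0∞) < exitTime B a ω} =ᵐ[P] ⋂ k : Fin d, {ω | ∀ s ≤ t, |B k s ω| < a k} := by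
  have hc : ∀ᵐ ω ∂P, ∀ k, Continuous (B k · ω) := ae_all_iff.2 fun k => (hB k).cont
  filter_upwards [hc] with ω hω
  apply propext
  change (t : ℝ≥0∞) < exitTime B a ω ↔ ω ∈ ⋂ k : Fin d, {ω | ∀ s ≤ t, |B k s ω| < a k}
  rw [mem_iInter]
  constructor
  · intro h k s hs
    by_contra hcon
    have h1 : exitTime B a ω ≤ s :=
      iInf₂_le s (fun hall => hcon (hall k))
    have h2 : (s : ℝ≥0∞) ≤ t := by exact_mod_cast hs
    exact absurd (h1.trans h2) (not_le.2 h)
  · intro h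
    have hopen : ∀ᶠ s in 𝓝 t, ∀ k, |B k s ω| < a k := by
      rw [eventually_all]
      intro k
      exact ((hω k).abs.tendsto t).eventually_lt_const (h k t le_rfl)
    obtain ⟨ε, hε, hball⟩ := Metric.eventually_nhds_iff.1 hopen
    have h1 : ((t + ⟨ε, hε.le⟩ : ℝ≥0) : ℝ≥0∞) ≤ exitTime B a ω := by
      refine le_iInf₂ fun s hs => ?_
      rw [ENNReal.coe_le_coe]
      by_contra hlt
      rw [not_le] at hlt
      apply hs
      rcases le_total s t with hst | hst
      · exact fun k => h k s hst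
      · apply hball
        rw [NNReal.dist_eq]
        have h2 : (s : ℝ) < t + ε := by exact_mod_cast hlt
        have h3 : (t : ℝ) ≤ s := by exact_mod_cast hst
        rw [abs_of_nonneg (by linarith)]
        linarith
    refine lt_of_lt_of_le ?_ h1
    rw [ENNReal.coe_lt_coe]
    exact lt_add_of_pos_right t (show (0 : ℝ≥0) < ⟨ε, hε.le⟩ from hε)

lemma exit_ae' (hB : ∀ k, IsBrownianReal (B k) P) {a : Fin d → ℝ} (ha : ∀ k, 0 < a k)
    (t : ℝ≥0) : {ω | (t : ℝ≥0∞) < exitTime B a ω} =ᵐ[P]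
      ⋂ k : Fin d, path (B k) ⁻¹' M (a k) t :=
  (exit_ae hB a t).trans
    (Filter.EventuallyEq.countable_iInter fun k => (open_ae (hB k) (ha k) t).symm)

/-- The tail of the exit time. -/
lemma exit_tail (hB : ∀ k, IsBrownianReal (B k) P) (hind : iIndepFun (fun k ω t => B k t ω) P)
    {a : Fin d → ℝ} (ha : ∀ k, 0 < a k) (t : ℝ≥0) :
    P {ω | (t : ℝ≥0∞) < exitTime B a ω} = ∏ k, F0 (t / a k ^ 2) := by
  rw [measure_congr (exit_ae' hB ha t)]
  have h := hind.measure_inter_preimage_eq_mul Finset.univ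
    (sets := fun k => M (a k) t) (fun k _ => measurable_M _ _)
  simp only [Finset.mem_univ, iInter_true] at h
  refine h.trans (Finset.prod_congr rfl fun k _ => ?_)
  rw [← P_open (hB k) (ha k) t]
  exact measure_congr (open_ae (hB k) (ha k) t)

lemma exit_null (hB : ∀ k, IsBrownianReal (B k) P) {a : Fin d → ℝ} (ha : ∀ k, 0 < a k)
    (t : ℝ≥0) : NullMeasurableSet {ω | (t : ℝ≥0∞) < exitTime B a ω} P := by
  refine NullMeasurableSet.congr ?_ (exit_ae' hB ha t).symm
  exact NullMeasurableSet.iInter fun k => null_M (hB k).toIsPreBrownianReal _ _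

lemma exit_aemeas (hB : ∀ k, IsBrownianReal (B k) P) {a : Fin d → ℝ} (ha : ∀ k, 0 < a k) :
    AEMeasurable (exitTime B a) P := by
  have h : NullMeasurable (exitTime B a) P := by
    refine measurable_of_Ioi (δ := NullMeasurableSpace Ω P) fun x => ?_
    rcases eq_or_ne x ∞ with rfl | hx
    · have h0 : NullMeasurableSet (∅ : Set Ω) P := MeasurableSet.empty.nullMeasurableSet
      have h1 : exitTime B a ⁻¹' Ioi ∞ = ∅ := by ext ω; simp
      rw [← h1] at h0
      exact h0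
    · lift x to ℝ≥0 using hx
      exact exit_null hB ha x
  exact h.aemeasurable

/-- Layer cake for `ℝ≥0∞`-valued random times. -/
lemma moment {τ : Ω → ℝ≥0∞} (hτ : AEMeasurable τ P) (hfin : ∀ᵐ ω ∂P, τ ω ≠ ∞) {p : ℝ}
    (hp : 0 < p) : ∫⁻ ω, τ ω ^ p ∂P = ENNReal.ofReal p *
      ∫⁻ t in Ioi (0 : ℝ), P {ω | ENNReal.ofReal t < τ ω} * ENNReal.ofReal (t ^ (p - 1)) := by
  have h := lintegral_rpow_eq_lintegral_meas_lt_mul P (f := fun ω => (τ ω).toReal)
    (Eventually.of_forall fun ω => ENNReal.toReal_nonneg) hτ.ennreal_toReal hp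
  have e1 : ∫⁻ ω, τ ω ^ p ∂P = ∫⁻ ω, ENNReal.ofReal ((τ ω).toReal ^ p) ∂P := by
    apply lintegral_congr_ae
    filter_upwards [hfin] with ω hω
    rw [← ENNReal.ofReal_rpow_of_nonneg ENNReal.toReal_nonneg hp.le, ENNReal.ofReal_toReal hω]
  rw [e1, h]
  congr 1
  apply setLIntegral_congr_fun measurableSet_Ioi
  intro t ht
  simp only
  congr 1
  apply measure_congr
  filter_upwards [hfin] with ω hω
  apply propext
  change t < (τ ω).toReal ↔ ENNReal.ofReal t < τ ω
  rw [ENNReal.ofReal_lt_iff_lt_toReal (le_of_lt ht) hω]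

lemma rho_lt : (w 1 1 0).toReal < 1 := by
  rw [← ENNReal.toReal_one]
  exact (ENNReal.toReal_lt_toReal (ne_top_of_lt w_one_lt) ENNReal.one_ne_top).2 w_one_lt

lemma rho_pos : 0 < (w 1 1 0).toReal :=
  ENNReal.toReal_pos (w_pos one_ne_zero 1 0).ne' (ne_top_of_lt w_one_lt)

/-- Exponential decay of the survival function. -/
lemma F0_exp {t : ℝ} (ht : 0 ≤ t) : F0 t ≤
    ENNReal.ofReal ((w 1 1 0).toReal⁻¹ * Real.exp (-(-Real.log (w 1 1 0).toReal) * t)) := by
  refine (F0_geom ht).trans ?_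
  set r := (w 1 1 0).toReal with hr
  have h1 : w 1 1 0 = ENNReal.ofReal r := (ENNReal.ofReal_toReal (ne_top_of_lt w_one_lt)).symm
  rw [h1, ← ENNReal.ofReal_pow rho_pos.le]
  apply ENNReal.ofReal_le_ofReal
  have h2 : r⁻¹ * Real.exp (-(-Real.log r) * t) = r ^ (t - 1) := by
    have hr0 : 0 < r := rho_pos
    rw [neg_neg, Real.rpow_sub hr0, Real.rpow_one, Real.rpow_def_of_pos hr0]
    ring
  rw [h2, ← Real.rpow_natCast]
  apply Real.rpow_le_rpow_of_exponent_ge rho_pos rho_lt.le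
  exact (Nat.sub_one_lt_floor t).le

lemma fin_integral {c : ℝ} (hc : 0 < c) {p : ℝ} (hp : 0 < p) (hd : 0 < d) :
    ∫⁻ t in Ioi (0 : ℝ), F0 (t / c) ^ d * ENNReal.ofReal (t ^ (p - 1)) ≠ ∞ := by
  set r := (w 1 1 0).toReal with hr
  have hl : 0 < -Real.log r / c := div_pos (neg_pos.2 (Real.log_neg rho_pos rho_lt)) hc
  have hint : IntegrableOn (fun x : ℝ => x ^ (p - 1) * Real.exp (-(-Real.log r / c) * x ^ (1 : ℝ)))
      (Ioi 0) := integrableOn_rpow_mul_exp_neg_mul_rpow (by linarith) one_pos hl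
  have h1 : ∫⁻ t in Ioi (0 : ℝ), ENNReal.ofReal (r⁻¹ *
      (t ^ (p - 1) * Real.exp (-(-Real.log r / c) * t ^ (1 : ℝ)))) ≠ ∞ := by
    have := (hint.const_mul r⁻¹).lintegral_lt_top
    exact this.ne
  refine ne_top_of_le_ne_top h1 (setLIntegral_mono' measurableSet_Ioi fun t ht => ?_)
  have ht0 : 0 < t := ht
  have h2 : F0 (t / c) ^ d ≤ F0 (t / c) := pow_le_of_le_one zero_le (F0_le_one _) hd.ne'
  have h3 := F0_exp (t := t / c) (by positivity)
  calc F0 (t / c) ^ d * ENNReal.ofReal (t ^ (p - 1))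
      ≤ ENNReal.ofReal (r⁻¹ * Real.exp (-(-Real.log r) * (t / c))) *
        ENNReal.ofReal (t ^ (p - 1)) := mul_le_mul' (h2.trans h3) le_rfl
    _ = _ := by
      rw [← ENNReal.ofReal_mul (by have := rho_pos; positivity)]
      congr 1
      rw [Real.rpow_one]
      have : -(-Real.log r) * (t / c) = -(-Real.log r / c) * t := by ring
      rw [this]; ring

/-- The exit time is almost surely finite. -/
lemma exit_finite (hB : ∀ k, IsBrownianReal (B k) P)
    (hind : iIndepFun (fun k ω t => B k t ω) P) {a : Fin d → ℝ} (ha : ∀ k, 0 < a k)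
    (hd : 0 < d) : ∀ᵐ ω ∂P, exitTime B a ω ≠ ∞ := by
  set k0 : Fin d := ⟨0, hd⟩
  have hk0 := ha k0
  rw [ae_iff]
  simp only [ne_eq, not_not]
  have hle : ∀ n : ℕ, P {ω | exitTime B a ω = ∞} ≤ w 1 1 0 ^ n := by
    intro n
    set t : ℝ≥0 := ⟨n * a k0 ^ 2, by positivity⟩ with ht
    have h1 : P {ω | exitTime B a ω = ∞} ≤ P {ω | (t : ℝ≥0∞) < exitTime B a ω} := by
      apply measure_mono
      intro ω hω
      have hω' : exitTime B a ω = ∞ := hω
      change (t : ℝ≥0∞) < exitTime B a ω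
      rw [hω']; exact ENNReal.coe_lt_top
    rw [exit_tail hB hind ha] at h1
    refine h1.trans ?_
    rw [← Finset.mul_prod_erase Finset.univ _ (Finset.mem_univ k0)]
    have h2 : F0 ((t : ℝ) / a k0 ^ 2) ≤ w 1 1 0 ^ n := by
      have h3 : (t : ℝ) / a k0 ^ 2 = n := by
        change (n * a k0 ^ 2) / a k0 ^ 2 = (n : ℝ)
        field_simp
      rw [h3]
      simpa using F0_geom (t := (n : ℝ)) (by positivity)
    calc F0 ((t : ℝ) / a k0 ^ 2) * ∏ k ∈ Finset.univ.erase k0, F0 (t / a k ^ 2)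
        ≤ w 1 1 0 ^ n * 1 := mul_le_mul' h2 (Finset.prod_le_one' fun k _ => F0_le_one _)
      _ = _ := mul_one _
  have hlim : Tendsto (fun n : ℕ => w 1 1 0 ^ n) atTop (𝓝 0) :=
    ENNReal.tendsto_pow_atTop_nhds_zero_of_lt_one w_one_lt
  exact le_antisymm (ge_of_tendsto' hlim hle) zero_le

/-- Strictness: the tail function cannot satisfy a self-improving inequality. -/
lemma no_self_improve (hd : 0 < d) {q : ℝ} (hq : 1 < q)
    (h : ∀ t : ℝ, 0 < t → F0 t ^ d ≤ F0 (q * t)) : False := by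
  have hq0 : 0 < q := one_pos.trans hq
  have hstep : ∀ j : ℕ, F0 (q⁻¹ ^ j) ^ (d ^ j) ≤ F0 1 := by
    intro j
    induction j with
    | zero => simp
    | succ j ih =>
      refine le_trans ?_ ih
      have h1 := h (q⁻¹ ^ (j + 1)) (by positivity)
      have h2 : q * q⁻¹ ^ (j + 1) = q⁻¹ ^ j := by
        rw [pow_succ]
        field_simp
      rw [h2] at h1
      rw [pow_succ' d j, pow_mul]
      gcongr
  have hreal : ∀ j : ℕ, 1 - (d : ℝ) ^ j * (2 * Real.exp (-(q ^ j / 8))) ≤ (F0 1).toReal := by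
    intro j
    have hf : F0 (q⁻¹ ^ j) ≠ ∞ := ne_top_of_le_ne_top ENNReal.one_ne_top (F0_le_one _)
    have h1 := F0_flat (t := q⁻¹ ^ j) (by positivity)
    have e1 : 1 / (8 * q⁻¹ ^ j) = q ^ j / 8 := by rw [inv_pow]; field_simp
    rw [e1] at h1
    have h2 : 1 ≤ (F0 (q⁻¹ ^ j)).toReal + 2 * Real.exp (-(q ^ j / 8)) := by
      have h3 := ENNReal.toReal_mono (ENNReal.add_ne_top.2 ⟨hf, ENNReal.ofReal_ne_top⟩) h1
      rw [ENNReal.toReal_add hf ENNReal.ofReal_ne_top, ENNReal.toReal_ofReal (by positivity),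
        ENNReal.toReal_one] at h3
      exact h3
    have h4 : (F0 (q⁻¹ ^ j)).toReal ^ (d ^ j) ≤ (F0 1).toReal := by
      rw [← ENNReal.toReal_pow]
      exact ENNReal.toReal_mono (ne_top_of_le_ne_top ENNReal.one_ne_top (F0_le_one _)) (hstep j)
    have h5 : 0 ≤ (F0 (q⁻¹ ^ j)).toReal := ENNReal.toReal_nonneg
    have h6 := one_add_mul_le_pow (a := (F0 (q⁻¹ ^ j)).toReal - 1) (by linarith) (d ^ j)
    rw [add_sub_cancel] at h6
    refine le_trans (le_trans ?_ h6) h4
    push_cast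
    have h7 : (0 : ℝ) ≤ (d : ℝ) ^ j := by positivity
    nlinarith
  have hlim : Tendsto (fun j : ℕ => (d : ℝ) ^ j * (2 * Real.exp (-(q ^ j / 8)))) atTop (𝓝 0) := by
    obtain ⟨N, hN⟩ := ((tendsto_pow_atTop_atTop_of_one_lt hq).eventually_ge_atTop (d : ℝ)).exists
    have hx : Tendsto (fun j : ℕ => q ^ j / 8) atTop atTop :=
      (tendsto_pow_atTop_atTop_of_one_lt hq).atTop_div_const (by norm_num)
    have h1 := ((Real.tendsto_pow_mul_exp_neg_atTop_nhds_zero N).comp hx).const_mul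
      (2 * (8 : ℝ) ^ N)
    rw [mul_zero] at h1
    refine tendsto_of_tendsto_of_tendsto_of_le_of_le tendsto_const_nhds h1
      (fun j => by positivity) (fun j => ?_)
    simp only [Function.comp]
    have h2 : (d : ℝ) ^ j ≤ (q ^ j) ^ N := by
      calc (d : ℝ) ^ j ≤ (q ^ N) ^ j := by gcongr
        _ = _ := by rw [← pow_mul, ← pow_mul, mul_comm]
    calc (d : ℝ) ^ j * (2 * Real.exp (-(q ^ j / 8)))
        ≤ (q ^ j) ^ N * (2 * Real.exp (-(q ^ j / 8))) := by gcongr
      _ = 2 * 8 ^ N * ((q ^ j / 8) ^ N * Real.exp (-(q ^ j / 8))) := by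
        rw [div_pow]; field_simp
  have h1 : 1 - 0 ≤ (F0 1).toReal :=
    le_of_tendsto' (tendsto_const_nhds.sub hlim) hreal
  have h2 : F0 1 < 1 := by
    have := F0_geom (t := 1) zero_le_one
    simp only [Nat.floor_one, pow_one] at this
    exact lt_of_le_of_lt this w_one_lt
  have h3 : (F0 1).toReal < 1 := by
    rw [← ENNReal.toReal_one]
    exact (ENNReal.toReal_lt_toReal (ne_top_of_lt h2) ENNReal.one_ne_top).2 h2
  linarith

/-- The tail of the rescaled exit time from the cube. -/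
lemma cube_tail (hB : ∀ k, IsBrownianReal (B k) P) (hind : iIndepFun (fun k ω t => B k t ω) P)
    {c : ℝ} (hc : 0 < c) {t : ℝ} (ht : 0 < t) :
    P {ω | ENNReal.ofReal t < ENNReal.ofReal c * exitTime B (fun _ => 1) ω} =
      F0 (t / c) ^ d := by
  have h := exit_tail hB hind (a := fun _ => 1) (fun _ => one_pos) (t / c).toNNReal
  have h1 : ((t / c).toNNReal : ℝ) = t / c := Real.coe_toNNReal _ (by positivity)
  simp only [h1, one_pow, div_one, Finset.prod_const, Finset.card_univ, Fintype.card_fin] at h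
  rw [← h]
  congr 1
  ext ω
  change ENNReal.ofReal t < ENNReal.ofReal c * exitTime B (fun _ => 1) ω ↔
    ENNReal.ofReal (t / c) < exitTime B (fun _ => 1) ω
  have hc0 : ENNReal.ofReal c ≠ 0 := (ENNReal.ofReal_pos.2 hc).ne'
  rw [ENNReal.ofReal_div_of_pos hc, ENNReal.div_lt_iff (Or.inl hc0)
    (Or.inl ENNReal.ofReal_ne_top), mul_comm]

lemma box_tail (hB : ∀ k, IsBrownianReal (B k) P) (hind : iIndepFun (fun k ω t => B k t ω) P)
    {a : Fin d → ℝ} (ha : ∀ k, 0 < a k) {c : ℝ} (hc : 0 < c) {t : ℝ} (ht : 0 < t) :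
    P {ω | ENNReal.ofReal t < exitTime B a ω} = ∏ k, F0 (c / a k ^ 2 * (t / c)) := by
  have h := exit_tail hB hind ha t.toNNReal
  rw [Real.coe_toNNReal _ ht.le] at h
  refine Eq.trans ?_ (h.trans ?_)
  · rfl
  · congr with k
    congr 1
    field_simp

/-- Comparison of the moments of the exit time of a box and of the rescaled exit time of the
cube. -/
lemma compare (hd : 0 < d) (hB : ∀ k, IsBrownianReal (B k) P)
    (hind : iIndepFun (fun k ω t => B k t ω) P) {p : ℝ} (hp : 0 < p) {a : Fin d → ℝ}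
    (ha : ∀ k, 0 < a k) {c : ℝ} (hc : 0 < c) (hsum : ∑ k, c / a k ^ 2 = d) :
    (∫⁻ ω, exitTime B a ω ^ p ∂P ≤
      ∫⁻ ω, (ENNReal.ofReal c * exitTime B (fun _ => 1) ω) ^ p ∂P) ∧
    (∫⁻ ω, (ENNReal.ofReal c * exitTime B (fun _ => 1) ω) ^ p ∂P ≠ ∞) ∧
    (∫⁻ ω, exitTime B a ω ^ p ∂P =
      ∫⁻ ω, (ENNReal.ofReal c * exitTime B (fun _ => 1) ω) ^ p ∂P ↔ ∀ k, a k ^ 2 = c) := by
  have hG : ∀ t : ℝ, 0 ≤ t → Antitone (fun m => G m t) :=
    fun t ht => G_anti (hB ⟨0, hd⟩).toIsPreBrownianReal ht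
  have hs : ∀ k, 0 < c / a k ^ 2 := fun k => by have := ha k; positivity
  have m1 := moment (exit_aemeas hB ha) (exit_finite hB hind ha hd) hp
  have m2 := moment (τ := fun ω => ENNReal.ofReal c * exitTime B (fun _ => 1) ω)
    ((exit_aemeas hB (a := fun _ => 1) (fun _ => one_pos)).const_mul _)
    (by
      filter_upwards [exit_finite hB hind (a := fun _ => 1) (fun _ => one_pos) hd] with ω hω
      exact ENNReal.mul_ne_top ENNReal.ofReal_ne_top hω) hp
  have e1 : ∫⁻ t in Ioi (0 : ℝ), P {ω | ENNReal.ofReal t < exitTime B a ω} *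
      ENNReal.ofReal (t ^ (p - 1)) =
      ∫⁻ t in Ioi (0 : ℝ), (∏ k, F0 (c / a k ^ 2 * (t / c))) * ENNReal.ofReal (t ^ (p - 1)) :=
    setLIntegral_congr_fun measurableSet_Ioi fun t ht => by
      rw [box_tail hB hind ha hc ht]
  have e2 : ∫⁻ t in Ioi (0 : ℝ),
      P {ω | ENNReal.ofReal t < ENNReal.ofReal c * exitTime B (fun _ => 1) ω} *
        ENNReal.ofReal (t ^ (p - 1)) =
      ∫⁻ t in Ioi (0 : ℝ), F0 (t / c) ^ d * ENNReal.ofReal (t ^ (p - 1)) :=
    setLIntegral_congr_fun measurableSet_Ioi fun t ht => by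
      rw [cube_tail hB hind hc ht]
  rw [e1] at m1
  rw [e2] at m2
  have hp0 : ENNReal.ofReal p ≠ 0 := (ENNReal.ofReal_pos.2 hp).ne'
  have hpt : ∀ t : ℝ, 0 < t → (∏ k, F0 (c / a k ^ 2 * (t / c))) ≤ F0 (t / c) ^ d :=
    fun t ht => F0_prod hG _ hs hsum (div_pos ht hc)
  have hfin := fin_integral (d := d) hc hp hd
  have hle : ∫⁻ t in Ioi (0 : ℝ), (∏ k, F0 (c / a k ^ 2 * (t / c))) *
      ENNReal.ofReal (t ^ (p - 1)) ≤
      ∫⁻ t in Ioi (0 : ℝ), F0 (t / c) ^ d * ENNReal.ofReal (t ^ (p - 1)) :=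
    setLIntegral_mono' measurableSet_Ioi fun t ht => mul_le_mul' (hpt t ht) le_rfl
  rw [m1, m2]
  refine ⟨by gcongr, ENNReal.mul_ne_top ENNReal.ofReal_ne_top hfin, ?_⟩
  rw [ENNReal.mul_right_inj hp0 ENNReal.ofReal_ne_top]
  constructor
  · intro heq
    by_contra hcon
    -- some factor is larger than one
    obtain ⟨k, hk⟩ : ∃ k, 1 < c / a k ^ 2 := by
      by_contra hno
      simp only [not_exists, not_lt] at hno
      apply hcon
      have h1 : ∀ k ∈ Finset.univ, c / a k ^ 2 = 1 := by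
        refine (Finset.sum_eq_sum_iff_of_le (fun k _ => hno k)).1 ?_
        rw [hsum]; simp
      intro k
      have h2 := h1 k (Finset.mem_univ k)
      rw [div_eq_one_iff_eq (by have := ha k; positivity)] at h2
      exact h2.symm
    set s := c / a k ^ 2 with hsdef
    have mF : Measurable (fun t : ℝ => F0 (t / c) ^ d * ENNReal.ofReal (t ^ (p - 1))) := by
      have : Measurable (fun t : ℝ => F0 (t / c)) :=
        (F0_anti.measurable).comp (measurable_id.div_const c)
      exact (this.pow_const d).mul (by fun_prop)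
    have hae := ae_eq_of_ae_le_of_lintegral_le
      (μ := volume.restrict (Ioi (0 : ℝ)))
      (f := fun t : ℝ => (∏ k, F0 (c / a k ^ 2 * (t / c))) * ENNReal.ofReal (t ^ (p - 1)))
      (g := fun t : ℝ => F0 (t / c) ^ d * ENNReal.ofReal (t ^ (p - 1)))
      (by
        filter_upwards [ae_restrict_mem measurableSet_Ioi] with t ht
        exact mul_le_mul' (hpt t ht) le_rfl)
      (ne_top_of_le_ne_top hfin hle) mF.aemeasurable heq.ge
    have hae2 : ∀ᵐ t ∂(volume.restrict (Ioi (0 : ℝ))), F0 (t / c) ^ d ≤ F0 (s * (t / c)) := by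
      filter_upwards [hae, ae_restrict_mem measurableSet_Ioi] with t ht ht0
      have hpos : (0 : ℝ) < t ^ (p - 1) := Real.rpow_pos_of_pos ht0 _
      have h1 : (∏ k, F0 (c / a k ^ 2 * (t / c))) = F0 (t / c) ^ d :=
        (ENNReal.mul_left_inj (ENNReal.ofReal_pos.2 hpos).ne' ENNReal.ofReal_ne_top).1 ht
      rw [← h1, ← Finset.mul_prod_erase Finset.univ _ (Finset.mem_univ k)]
      calc F0 (c / a k ^ 2 * (t / c)) *
            ∏ x ∈ Finset.univ.erase k, F0 (c / a x ^ 2 * (t / c))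
          ≤ F0 (c / a k ^ 2 * (t / c)) * 1 :=
            mul_le_mul' le_rfl (Finset.prod_le_one' fun _ _ => F0_le_one _)
        _ = _ := mul_one _
    -- improve to all times, with a slightly smaller factor
    set q := (1 + s) / 2 with hq
    have hq1 : 1 < q := by rw [hq]; linarith
    have hqs : q < s := by rw [hq]; linarith
    have hs0 : 0 < s := by linarith
    refine no_self_improve hd hq1 fun u hu => ?_
    have hlt : q / s * (c * u) < c * u := by
      have : q / s < 1 := (div_lt_one hs0).2 hqs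
      have hcu : 0 < c * u := mul_pos hc hu
      nlinarith
    have hne : (volume : Measure ℝ) (Ioo (q / s * (c * u)) (c * u)) ≠ 0 := by
      rw [Real.volume_Ioo]
      exact (ENNReal.ofReal_pos.2 (by linarith)).ne'
    have hsub : Ioo (q / s * (c * u)) (c * u) ⊆ Ioi 0 := by
      intro t ht
      exact lt_trans (by positivity) ht.1
    have hae3 := ae_restrict_of_ae_restrict_of_subset hsub hae2
    have : (ae (volume.restrict (Ioo (q / s * (c * u)) (c * u)))).NeBot :=
      ae_restrict_neBot.2 hne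
    obtain ⟨t, ht, htm⟩ := (hae3.and (ae_restrict_mem measurableSet_Ioo)).exists
    have h1 : t / c ≤ u := by
      rw [div_le_iff₀ hc]; linarith [htm.2]
    have h2 : q * u ≤ s * (t / c) := by
      have h3 : q / s * (c * u) < t := htm.1
      have h4 : q / s * (c * u) = c * (q * u) / s := by ring
      rw [h4, div_lt_iff₀ hs0] at h3
      rw [← mul_div_assoc, le_div_iff₀ hc]
      linarith
    calc F0 u ^ d ≤ F0 (t / c) ^ d := by gcongr; exact F0_anti h1
      _ ≤ F0 (s * (t / c)) := ht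
      _ ≤ F0 (q * u) := F0_anti h2
  · intro h
    apply setLIntegral_congr_fun measurableSet_Ioi
    intro t ht
    simp only
    congr 1
    have h1 : ∀ k, F0 (c / a k ^ 2 * (t / c)) = F0 (t / c) := by
      intro k
      rw [h k, div_self hc.ne', one_mul]
    rw [Finset.prod_congr rfl fun k _ => h1 k]
    simp

/-- For `d ≥ 2` independent standard Brownian motions, every `p > 0` and every box: the
normalized exit-time moment of the box is at most the one of the cube, the latter is finite, and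
equality holds exactly when the box is a cube. -/
theorem result {Ω : Type*} [MeasurableSpace Ω] (P : Measure Ω) {d : ℕ} (hd : 2 ≤ d)
    (B : Fin d → ℝ≥0 → Ω → ℝ) (hB : ∀ k, IsBrownianReal (B k) P)
    (hind : iIndepFun (fun k ω t => B k t ω) P) (p : ℝ) (hp : 0 < p) (a : Fin d → ℝ)
    (ha : ∀ k, 0 < a k) :
    normMoment P B p a ≤ normMoment P B p (fun _ => 1) ∧
    normMoment P B p (fun _ => 1) ≠ ∞ ∧
    (normMoment P B p a = normMoment P B p (fun _ => 1) ↔ ∀ j k, a j = a k) := by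
  have hd0 : 0 < d := by omega
  set S : ℝ := ∑ k, (a k ^ 2)⁻¹ with hS
  have hS0 : 0 < S := by
    apply Finset.sum_pos (fun k _ => by have := ha k; positivity)
    exact ⟨⟨0, hd0⟩, Finset.mem_univ _⟩
  have hdR : (0 : ℝ) < d := by exact_mod_cast hd0
  set c : ℝ := d / S with hc
  have hc0 : 0 < c := div_pos hdR hS0
  have hsum : ∑ k, c / a k ^ 2 = d := by
    simp_rw [div_eq_mul_inv]
    rw [← Finset.mul_sum, ← hS, hc, div_mul_cancel₀ _ hS0.ne']
  obtain ⟨h1, h2, h3⟩ := compare hd0 hB hind hp ha hc0 hsum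
  have hlam : lam a = Real.pi ^ 2 / 4 * S := rfl
  have hlam0 : 0 < lam a := by rw [hlam]; positivity
  have hlam1 : lam (fun _ : Fin d => (1 : ℝ)) = lam a * c := by
    rw [hlam, hc]
    unfold lam
    simp
    field_simp
  have e1 : normMoment P B p (fun _ => 1) = ENNReal.ofReal (lam a ^ p) *
      ∫⁻ ω, (ENNReal.ofReal c * exitTime B (fun _ => 1) ω) ^ p ∂P := by
    unfold normMoment
    rw [hlam1, Real.mul_rpow hlam0.le hc0.le, ENNReal.ofReal_mul (by positivity), mul_assoc]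
    congr 1
    rw [← ENNReal.ofReal_rpow_of_nonneg hc0.le hp.le]
    simp_rw [ENNReal.mul_rpow_of_nonneg _ _ hp.le]
    rw [lintegral_const_mul' _ _ (ENNReal.rpow_ne_top_of_nonneg hp.le ENNReal.ofReal_ne_top)]
  have hL0 : ENNReal.ofReal (lam a ^ p) ≠ 0 :=
    (ENNReal.ofReal_pos.2 (Real.rpow_pos_of_pos hlam0 p)).ne'
  rw [e1]
  unfold normMoment
  refine ⟨by gcongr, ENNReal.mul_ne_top ENNReal.ofReal_ne_top h2, ?_⟩
  rw [ENNReal.mul_right_inj hL0 ENNReal.ofReal_ne_top, h3]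
  constructor
  · intro h j k
    have h4 : a j ^ 2 = a k ^ 2 := by rw [h j, h k]
    exact (pow_left_inj₀ (ha j).le (ha k).le two_ne_zero).1 h4
  · intro h k
    have h4 : ∀ j, c / a j ^ 2 = c / a k ^ 2 := fun j => by rw [h j k]
    rw [Finset.sum_congr rfl fun j _ => h4 j] at hsum
    simp only [Finset.sum_const, Finset.card_univ, Fintype.card_fin, nsmul_eq_mul] at hsum
    have h5 : c / a k ^ 2 = 1 := by
      have := mul_left_cancel₀ hdR.ne' (hsum.trans (mul_one _).symm)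
      exact this
    rw [div_eq_one_iff_eq (by have := ha k; positivity)] at h5
    exact h5.symm

end Pool.Agent.Results.MP_1e851b_pr.BoxesVersusCube
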